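import Pool.Agent.H900R3.Liou.Graph

set_option autoImplicit false

open Set Filter Topology MeasureTheory
open scoped ContDiff ENNReal NNReal

namespace Pool.Agent.Results.MP_c7f82c_an.LiouvilleNodalLength

/-- The data of a Liouville metric `(f(x) + h(y)) (dx² + dy²)` on the torus
`ℝ² / (aℤ × bℤ) = ℂ / (aℤ + i bℤ)`: `f` and `h` are smooth, periodic of periods `a` and `b`, and
`f(x) + h(y) ≥ 0`. When `f(x) + h(y) > 0` everywhere this is an arbitrary Liouville torus (for
constant `h`: an arbitrary torus of revolution). -/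
structure LiouvilleTorus where
  /-- the period in `x` -/
  a : ℝ
  /-- the period in `y` -/
  b : ℝ
  /-- it is positive -/
  a_pos : 0 < a
  /-- it is positive -/
  b_pos : 0 < b
  /-- the part of the conformal factor depending on `x` -/
  f : ℝ → ℝ
  /-- the part of the conformal factor depending on `y` -/
  h : ℝ → ℝ
  /-- it is smooth -/
  f_smooth : ContDiff ℝ ∞ f
  /-- it is smooth -/
  h_smooth : ContDiff ℝ ∞ h
  /-- it is periodic -/
  f_per : ∀ x, f (x + a) = f x
  /-- it is periodic -/
  h_per : ∀ y, h (y + b) = h y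
  /-- the conformal factor is not negative -/
  nonneg : ∀ x y, 0 ≤ f x + h y

/-- The conformal factor `ρ(x + iy) = f(x) + h(y)`; the metric is `ρ (dx² + dy²)`. -/
def LiouvilleTorus.conf (g : LiouvilleTorus) (z : ℂ) : ℝ := g.f z.re + g.h z.im

/-- The Laplacian `φ_xx + φ_yy` of the plane; the Laplace-Beltrami operator of `ρ (dx² + dy²)` is
`ρ⁻¹ (φ_xx + φ_yy)`. -/
noncomputable def lap (φ : ℂ → ℝ) (z : ℂ) : ℝ :=
  fderiv ℝ (fun w => fderiv ℝ φ w 1) z 1 +
    fderiv ℝ (fun w => fderiv ℝ φ w Complex.I) z Complex.I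

/-- `φ` is an eigenfunction, of eigenvalue `lam`, of the Laplace-Beltrami operator of the torus
`g`: a smooth function on the torus (a smooth doubly periodic function on the plane), not
identically zero, with `ρ⁻¹ (φ_xx + φ_yy) + lam φ = 0`, that is `φ_xx + φ_yy + lam ρ φ = 0`. -/
structure LiouvilleTorus.IsEigenfunction (g : LiouvilleTorus) (lam : ℝ) (φ : ℂ → ℝ) : Prop where
  /-- it is smooth -/
  smooth : ContDiff ℝ ∞ φ
  /-- it is periodic in `x` -/
  per_x : ∀ z, φ (z + g.a) = φ z
  /-- it is periodic in `y` -/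
  per_y : ∀ z, φ (z + g.b * Complex.I) = φ z
  /-- it is not identically zero -/
  nonzero : ∃ z, φ z ≠ 0
  /-- the eigenvalue equation -/
  eq : ∀ z, lap φ z + lam * g.conf z * φ z = 0

/-- The zero set of `φ` in the fundamental rectangle `[0, a) × [0, b)` of the torus. -/
def LiouvilleTorus.nodalSet (g : LiouvilleTorus) (φ : ℂ → ℝ) : Set ℂ :=
  {z | z.re ∈ Ico 0 g.a ∧ z.im ∈ Ico 0 g.b ∧ φ z = 0}

/-- The length of the zero set of `φ` on the torus, for the metric `ρ (dx² + dy²)`: the integral
over the zero set of `√ρ` with respect to the Euclidean one-dimensional Hausdorff measure. -/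
noncomputable def LiouvilleTorus.nodalLength (g : LiouvilleTorus) (φ : ℂ → ℝ) : ℝ≥0∞ :=
  ∫⁻ z in g.nodalSet φ, ENNReal.ofReal (Real.sqrt (g.conf z)) ∂μH[1]

theorem exists_max {f : ℝ → ℝ} (hf : Continuous f) {a : ℝ} (ha : 0 < a)
    (hp : ∀ x, f (x + a) = f x) : ∃ x0, ∀ x, f x ≤ f x0 := by
  obtain ⟨m, _, hmax⟩ := isCompact_Icc.exists_isMaxOn
    (⟨0, by simp [ha.le]⟩ : (Icc 0 a).Nonempty) hf.continuousOn
  refine ⟨m, fun x => ?_⟩
  rw [← H900R3.Liou.per_int hp x ⌊x / a⌋]
  exact hmax (Ico_subset_Icc_self (H900R3.Liou.fl_mem' ha x))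

/-- **Yau's upper bound for the nodal length on all Liouville tori.** The length of the zero set of
an eigenfunction of eigenvalue `lam > 0` is at most `K √lam`, where
`K = (4 / π) a b max ρ` depends only on the metric. -/
theorem result (g : LiouvilleTorus) (lam : ℝ) (hlam : 0 < lam) (φ : ℂ → ℝ)
    (hφ : g.IsEigenfunction lam φ) :
    g.nodalLength φ ≤
      ENNReal.ofReal (4 / Real.pi * (g.a * g.b * ⨆ z, g.conf z) * Real.sqrt lam) := by
  obtain ⟨x0, hx0⟩ := exists_max g.f_smooth.continuous g.a_pos g.f_per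
  obtain ⟨y0, hy0⟩ := exists_max g.h_smooth.continuous g.b_pos g.h_per
  have hbdd : BddAbove (range g.conf) := ⟨g.f x0 + g.h y0, by
    rintro _ ⟨z, rfl⟩
    exact add_le_add (hx0 _) (hy0 _)⟩
  set R := ⨆ z, g.conf z with hR
  have hle : ∀ z, g.conf z ≤ R := fun z => le_ciSup hbdd z
  have hR0 : 0 ≤ R := (g.nonneg 0 0).trans (hle ⟨0, 0⟩)
  let D : H900R3.Liou.Data :=
    { a := g.a
      b := g.b
      f := g.f
      h := g.h
      lam := lam
      ha := g.a_pos
      hb := g.b_pos
      hf := g.f_smooth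
      hh := g.h_smooth
      pf := g.f_per
      ph := g.h_per
      F := g.f x0
      H := R - g.f x0
      hF := hx0
      hH := fun y => by
        have := hle ⟨x0, y⟩
        simp only [LiouvilleTorus.conf] at this
        linarith
      hlam := hlam }
  have hsol : H900R3.Liou.Sol D φ :=
    { smooth := hφ.smooth
      perX := hφ.per_x
      perY := hφ.per_y
      pde := fun z => by
        have h1 := hφ.eq z
        show (H900R3.Liou.dX (H900R3.Liou.dX φ) z + lam * g.f z.re * φ z) +
          (H900R3.Liou.dY (H900R3.Liou.dY φ) z + lam * g.h z.im * φ z) = 0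
        have h2 : lap φ z = H900R3.Liou.dX (H900R3.Liou.dX φ) z +
          H900R3.Liou.dY (H900R3.Liou.dY φ) z := rfl
        rw [h2] at h1
        simp only [LiouvilleTorus.conf] at h1
        linarith }
  have hne : φ ≠ 0 := by
    obtain ⟨z, hz⟩ := hφ.nonzero
    intro h0
    exact hz (by rw [h0]; rfl)
  have key := H900R3.Liou.nodal_length D hsol hne
  have hFH : D.F + D.H = R := by
    show g.f x0 + (R - g.f x0) = R
    ring
  rw [hFH] at key
  have key' : μH[1] (g.nodalSet φ) ≤
      ENNReal.ofReal (4 / Real.pi * (g.a * g.b) * Real.sqrt (lam * R)) := key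
  calc g.nodalLength φ ≤ ∫⁻ _ in g.nodalSet φ, ENNReal.ofReal (Real.sqrt R) ∂μH[1] := by
        unfold LiouvilleTorus.nodalLength
        exact lintegral_mono fun z => ENNReal.ofReal_le_ofReal (Real.sqrt_le_sqrt (hle z))
    _ = ENNReal.ofReal (Real.sqrt R) * μH[1] (g.nodalSet φ) := by
        rw [lintegral_const, Measure.restrict_apply MeasurableSet.univ, univ_inter]
    _ ≤ ENNReal.ofReal (Real.sqrt R) *
        ENNReal.ofReal (4 / Real.pi * (g.a * g.b) * Real.sqrt (lam * R)) := by
        gcongr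
    _ = ENNReal.ofReal (4 / Real.pi * (g.a * g.b * R) * Real.sqrt lam) := by
        rw [← ENNReal.ofReal_mul (Real.sqrt_nonneg _)]
        congr 1
        rw [Real.sqrt_mul hlam.le]
        have : Real.sqrt R * Real.sqrt R = R := Real.mul_self_sqrt hR0
        calc Real.sqrt R * (4 / Real.pi * (g.a * g.b) * (Real.sqrt lam * Real.sqrt R))
            = 4 / Real.pi * (g.a * g.b * (Real.sqrt R * Real.sqrt R)) * Real.sqrt lam := by ring
          _ = _ := by rw [this]

end Pool.Agent.Results.MP_c7f82c_an.LiouvilleNodalLength
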