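import Pool.Agent.H900R3.Rev.Main
import Pool.Agent.H900R3.Rev.TaskFourier

set_option autoImplicit false

open Set Filter Topology MeasureTheory
open scoped ContDiff ENNReal NNReal

namespace Pool.Agent.Results.MP_c7f82c_an.RevolutionNodalLength

/-- A sphere of revolution, in the isothermal coordinates `(x, y)` of the complement of its two
poles: the metric is `f(x) (dx² + dy²)` on the cylinder `ℝ × ℝ/2πℤ`, where `y` is the angle of
rotation and the poles are `x = ±∞`; `f` is smooth and positive and decays exponentially. For every
smooth metric on the sphere that is invariant under the rotations one has `f(x) ≤ C exp(-2|x|)`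
(with profile `r(s)`, `0 < s < L`, that is metric `ds² + r(s)² dy²`, one has `dx = ds / r(s)` and
`f = r²`); the decay exponent `α > 0` is arbitrary here, so the poles may be conical points. -/
structure SphereOfRevolution where
  /-- the conformal factor, a function of `x` only -/
  f : ℝ → ℝ
  /-- it is smooth -/
  f_smooth : ContDiff ℝ ∞ f
  /-- it is positive -/
  f_pos : ∀ x, 0 < f x
  /-- it decays exponentially at both poles -/
  f_decay : ∃ C > 0, ∃ α > 0, ∀ x, f x ≤ C * Real.exp (-α * |x|)

/-- The Laplacian `φ_xx + φ_yy` of the plane; the Laplace-Beltrami operator of `f (dx² + dy²)` is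
`f⁻¹ (φ_xx + φ_yy)`. -/
noncomputable def lap (φ : ℂ → ℝ) (z : ℂ) : ℝ :=
  fderiv ℝ (fun w => fderiv ℝ φ w 1) z 1 +
    fderiv ℝ (fun w => fderiv ℝ φ w Complex.I) z Complex.I

/-- `φ` is an eigenfunction, of eigenvalue `lam`, of the Laplace-Beltrami operator of `g`: a bounded
smooth function on the cylinder (a smooth function of `z = x + iy`, of period `2π` in `y`), not
identically zero, with `φ_xx + φ_yy + lam f(x) φ = 0`. (The restriction of an eigenfunction of a
smooth sphere of revolution to the complement of the poles is such a function.) -/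
structure SphereOfRevolution.IsEigenfunction (g : SphereOfRevolution) (lam : ℝ) (φ : ℂ → ℝ) :
    Prop where
  /-- it is smooth -/
  smooth : ContDiff ℝ ∞ φ
  /-- it is periodic in `y` -/
  per_y : ∀ z, φ (z + (2 * Real.pi : ℝ) * Complex.I) = φ z
  /-- it is bounded -/
  bounded : ∃ C, ∀ z, |φ z| ≤ C
  /-- it is not identically zero -/
  nonzero : ∃ z, φ z ≠ 0
  /-- the eigenvalue equation -/
  eq : ∀ z, lap φ z + lam * g.f z.re * φ z = 0

/-- The zero set of `φ` on the cylinder (the sphere without its poles): one representative
`z = x + iy`, `0 ≤ y < 2π`, of every point. -/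
def nodalSet (φ : ℂ → ℝ) : Set ℂ := {z | z.im ∈ Ico 0 (2 * Real.pi) ∧ φ z = 0}

/-- The length of the zero set of `φ` for the metric `f (dx² + dy²)`: the integral over the zero set
of `√f` with respect to the Euclidean one-dimensional Hausdorff measure. (The two poles do not
change the length.) -/
noncomputable def SphereOfRevolution.nodalLength (g : SphereOfRevolution) (φ : ℂ → ℝ) : ℝ≥0∞ :=
  ∫⁻ z in nodalSet φ, ENNReal.ofReal (Real.sqrt (g.f z.re)) ∂μH[1]

/-- **Yau's upper bound for the nodal length on all spheres of revolution.** There is a constant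
`K`, depending only on the metric, such that the length of the zero set of every eigenfunction, of
every eigenvalue `lam > 0`, is at most `K √lam`. -/
theorem result (g : SphereOfRevolution) : ∃ K : ℝ, ∀ (lam : ℝ) (φ : ℂ → ℝ), 0 < lam →
    g.IsEigenfunction lam φ → g.nodalLength φ ≤ ENNReal.ofReal (K * Real.sqrt lam) := by
  obtain ⟨C, hC, α, hα, hf⟩ := g.f_decay
  obtain ⟨K, hK⟩ := H900R3.Rev.nodal_bound H900R3.Rev.taskFourier hC hα
  refine ⟨K, fun lam φ hlam hφ => hK lam g.f φ hlam g.f_smooth g.f_pos hf
    { smooth := hφ.smooth
      perY := hφ.per_y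
      bdd := hφ.bounded
      pde := fun z => hφ.eq z } ?_⟩
  obtain ⟨z, hz⟩ := hφ.nonzero
  intro h0
  exact hz (by rw [h0]; rfl)

end Pool.Agent.Results.MP_c7f82c_an.RevolutionNodalLength
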